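import Pool.Agent.X205.OT.Smooth

/-! MP_e338b6_an, Q1 (negative): smooth compactly supported densities in the plane all of whose
optimal plans for the cost `|x-y|` have a support of Hausdorff dimension at least 3. -/

set_option autoImplicit false

open MeasureTheory Pool.Agent.X205.OT
open scoped ENNReal ContDiff

namespace Pool.Agent.Results.MP_e338b6_an.LargeSupports

/-- The measure `f 𝓛ⁿ` on `ℝⁿ`. -/
noncomputable def dens {n : ℕ} (f : EuclideanSpace ℝ (Fin n) → ℝ) :
    Measure (EuclideanSpace ℝ (Fin n)) :=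
  volume.withDensity fun x => ENNReal.ofReal (f x)

/-- `f` is a smooth compactly supported probability density on `ℝⁿ`. -/
def SmoothDensity {n : ℕ} (f : EuclideanSpace ℝ (Fin n) → ℝ) : Prop :=
  ContDiff ℝ ∞ f ∧ HasCompactSupport f ∧ (∀ x, 0 ≤ f x) ∧ IsProbabilityMeasure (dens f)

/-- Q1: for every `n ≥ 1` and all smooth compactly supported probability densities `f`, `g` on `ℝⁿ`
some optimal coupling of `f 𝓛ⁿ` and `g 𝓛ⁿ` for the cost `|x-y|` has a closed support of Hausdorff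
dimension at most `n`. -/
def Q1 : Prop :=
  ∀ n : ℕ, 1 ≤ n → ∀ f g : EuclideanSpace ℝ (Fin n) → ℝ, SmoothDensity f → SmoothDensity g →
    ∃ π, IsOptimal (dens f) (dens g) π ∧ dimH (msupp π) ≤ n

/-- There are smooth compactly supported probability densities `f`, `g` on the plane such that
optimal couplings of `f 𝓛²` and `g 𝓛²` for the cost `|x-y|` exist and the closed support of every
one of them has Hausdorff dimension at least `3`. Hence Q1 is false. -/
theorem result :
    (∃ f g : EuclideanSpace ℝ (Fin 2) → ℝ, SmoothDensity f ∧ SmoothDensity g ∧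
      (∃ π, IsOptimal (dens f) (dens g) π) ∧
      ∀ π, IsOptimal (dens f) (dens g) π → 3 ≤ dimH (msupp π)) ∧ ¬ Q1 := by
  obtain ⟨f, g, h1, h2, h3, h4, h5, h6, h7, h8, h9, h10⟩ := main
  refine ⟨⟨f, g, ⟨h1, h3, h5, h7⟩, ⟨h2, h4, h6, h8⟩, h9, h10⟩, fun hQ => ?_⟩
  obtain ⟨π, hπ, hd⟩ := hQ 2 (by norm_num) f g ⟨h1, h3, h5, h7⟩ ⟨h2, h4, h6, h8⟩
  have h := (h10 π hπ).trans hd
  have h23 : (3 : ℝ≥0∞) ≤ ((2 : ℕ) : ℝ≥0∞) := h
  rw [show (3 : ℝ≥0∞) = ((3 : ℕ) : ℝ≥0∞) by norm_num, Nat.cast_le] at h23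
  omega

end Pool.Agent.Results.MP_e338b6_an.LargeSupports
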